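import Pool.Agent.H25.DP.Targets3
import Pool.Agent.H11.DL.Base

/-!
# Two dilations: module SHX, the contour shift at a clean height with the weight `gx`
-/

set_option autoImplicit false

open Complex MeasureTheory Set Filter Topology

namespace Pool.Agent.H65.DP

open Pool.Agent.H25.DL Pool.Agent.H25.DP Pool.Agent.H11.DL

theorem norm_gx {β : ℝ} (hβ : 0 < β) (ξ x y : ℝ) :
    ‖gx β ξ (x + y * I)‖ = Real.exp (-(x * ξ)) *
      (Real.exp ((x ^ 2 - y ^ 2) / β ^ 2) / (β * Real.sqrt Real.pi)) := by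
  rw [gx, norm_mul, norm_gs hβ, Complex.norm_exp]
  congr 2
  simp

theorem differentiable_gx (β ξ : ℝ) : Differentiable ℂ (gx β ξ) := by
  have h : gx β ξ = fun z => cexp (-(z * ξ)) * gs β z := rfl
  rw [h]
  exact (by fun_prop : Differentiable ℂ fun z : ℂ => cexp (-(z * ξ))).mul (differentiable_gs β)

theorem shx : T_SHX := by
  intro ι _ f Y β C x₂ hβ hx₂
  have hlim := tend_aux (C + x₂ * β + 1 / 2)
    (1 + Real.log (4 * β / (β * Real.sqrt Real.pi))) (1 / β ^ 2) (by positivity)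
  have hev : ∀ᶠ T : ℝ in atTop, Real.exp ((C + x₂ * β + 1 / 2) * Real.log T +
      (1 + Real.log (4 * β / (β * Real.sqrt Real.pi))) -
      1 / β ^ 2 * Real.log T ^ 2) < 1 := hlim.eventually_lt_const (by norm_num)
  obtain ⟨T₀, hT₀⟩ := eventually_atTop.1 (hev.and (eventually_ge_atTop (1 : ℝ)))
  refine ⟨T₀, fun T hT u hu hclean ξ hξ0 hξ => ?_⟩
  obtain ⟨hsmall, hT1⟩ := hT₀ T hT
  obtain ⟨H, hH1, hH2, hH3⟩ := hclean
  set R : ℝ := Real.log T with hR
  have hR0 : 0 ≤ R := Real.log_nonneg hT1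
  have hTpos : 0 < T := by linarith
  set F : ℂ → ℂ := fun s => H s * gx β ξ (s - 1 / 2 - u * I) with hF
  have hbox : ∀ s : ℂ, 1 / 2 - β ≤ s.re → s.re ≤ 1 / 2 + β → |s.im - u| ≤ R → s ∈ box β R u := by
    intro s h1 h2 h3
    exact ⟨abs_le.2 ⟨by linarith, by linarith⟩, h3⟩
  set M : ℝ := T ^ C * (Real.exp (x₂ * β * R) *
    (Real.exp (1 - 1 / β ^ 2 * R ^ 2) / (β * Real.sqrt Real.pi))) with hM
  have hπ : 0 < Real.sqrt Real.pi := Real.sqrt_pos.2 Real.pi_pos
  have hbound : ∀ x y : ℝ, 1 / 2 - β ≤ x → x ≤ 1 / 2 + β → y ^ 2 = R ^ 2 → |y| ≤ R →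
      ‖F (x + (u + y : ℝ) * I)‖ ≤ M := by
    intro x y h1 h2 h3 h4
    have hs : ((x : ℂ) + (u + y : ℝ) * I) - 1 / 2 - u * I = ((x - 1 / 2 : ℝ) : ℂ) + y * I := by
      push_cast; ring
    simp only [hF]
    rw [norm_mul, hs, norm_gx hβ]
    refine mul_le_mul (hH1 _ (hbox _ (by simpa using h1) (by simpa using h2) (by simpa using h4))).2
      ?_ (by positivity) (by positivity)
    have h9 : -((x - 1 / 2) * ξ) ≤ x₂ * β * R := by
      have h10 : -((x - 1 / 2) * ξ) ≤ β * ξ := by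
        have h11 : 0 ≤ (β + (x - 1 / 2)) * ξ := mul_nonneg (by linarith) hξ0
        linarith
      have h12 : β * ξ ≤ β * (x₂ * R) := mul_le_mul_of_nonneg_left hξ hβ.le
      linarith
    have h5 : (x - 1 / 2) ^ 2 ≤ β ^ 2 := by
      rw [sq_le_sq, abs_of_pos hβ]
      exact abs_le.2 ⟨by linarith, by linarith⟩
    have h6 : (x - 1 / 2) ^ 2 / β ^ 2 ≤ 1 := by
      rw [div_le_one (by positivity)]
      exact h5
    have h7 : R ^ 2 / β ^ 2 = 1 / β ^ 2 * R ^ 2 := by ring
    have h8 : ((x - 1 / 2) ^ 2 - y ^ 2) / β ^ 2 ≤ 1 - 1 / β ^ 2 * R ^ 2 := by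
      rw [h3, sub_div]
      linarith
    exact mul_le_mul (Real.exp_le_exp.2 h9)
      (div_le_div_of_nonneg_right (Real.exp_le_exp.2 h8) (by positivity)) (by positivity)
      (Real.exp_pos _).le
  have hsh := shift_rect F (a := 1 / 2 - β) (b := 1 / 2 + β) (u := u) (R := R) (M := M)
    (by linarith) hR0 ?_ ?_ ?_
  · have e1 : KR f Y β ξ R u = ∫ y in (-R)..R, F (((1 / 2 + β : ℝ) : ℂ) + (u + y : ℝ) * I) := by
      unfold KR
      refine intervalIntegral.integral_congr fun y hy => ?_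
      rw [uIcc_of_le (by linarith)] at hy
      have hy' : |u + y - u| ≤ R := by
        rw [add_sub_cancel_left]
        exact abs_le.2 hy
      simp only [hF]
      rw [show (((1 / 2 + β : ℝ) : ℂ) + (u + y : ℝ) * I) = (1 / 2 + β + (u + y : ℝ) * I : ℂ) by
        push_cast; ring]
      rw [hH2 (u + y) hy']
      congr 2
      push_cast; ring
    have e2 : LR f β ξ R u = ∫ y in (-R)..R, F (((1 / 2 - β : ℝ) : ℂ) + (u + y : ℝ) * I) := by
      unfold LR
      refine intervalIntegral.integral_congr fun y hy => ?_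
      rw [uIcc_of_le (by linarith)] at hy
      have hy' : |u + y - u| ≤ R := by
        rw [add_sub_cancel_left]
        exact abs_le.2 hy
      simp only [hF]
      rw [show (((1 / 2 - β : ℝ) : ℂ) + (u + y : ℝ) * I) = (1 / 2 - β + (u + y : ℝ) * I : ℂ) by
        push_cast; ring]
      rw [hH3 (u + y) hy']
      congr 2
      push_cast; ring
    rw [e1, e2]
    refine hsh.trans ?_
    have hlogpos : 0 < 4 * β / (β * Real.sqrt Real.pi) := by positivity
    have e3 : Real.exp ((C + x₂ * β + 1 / 2) * R +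
        (1 + Real.log (4 * β / (β * Real.sqrt Real.pi))) - 1 / β ^ 2 * R ^ 2) =
        Real.exp (1 / 2 * R) * (2 * (1 / 2 + β - (1 / 2 - β)) * M) := by
      rw [show (C + x₂ * β + 1 / 2) * R + (1 + Real.log (4 * β / (β * Real.sqrt Real.pi))) -
          1 / β ^ 2 * R ^ 2 =
        1 / 2 * R + (Real.log (4 * β / (β * Real.sqrt Real.pi)) + (R * C + (x₂ * β * R +
          (1 - 1 / β ^ 2 * R ^ 2)))) by ring,
        Real.exp_add, Real.exp_add, Real.exp_add, Real.exp_add, Real.exp_log hlogpos, hM,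
        Real.rpow_def_of_pos hTpos, ← hR]
      ring
    rw [e3] at hsmall
    rw [Real.rpow_def_of_pos hTpos, ← hR, show R * -(1 / 2) = -(1 / 2 * R) by ring, Real.exp_neg,
      ← one_div, le_div_iff₀ (Real.exp_pos _), mul_comm]
    exact hsmall.le
  · intro s h1 h2 h3
    exact ((hH1 s (hbox s h1 h2 h3)).1).mul ((differentiable_gx β ξ).differentiableAt.comp s
      (by fun_prop))
  · intro x h1 h2
    have := hbound x (-R) h1 h2 (by ring) (by rw [abs_neg, abs_of_nonneg hR0])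
    rwa [← sub_eq_add_neg] at this
  · intro x h1 h2
    exact hbound x R h1 h2 rfl (by rw [abs_of_nonneg hR0])

end Pool.Agent.H65.DP
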