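import Pool.Agent.H11.DL.EX
import Pool.Agent.H65.DP.SHX

/-!
# Two dilations: module EXX, the local average with the weight `gx` as a sum over the main blocks
-/

set_option autoImplicit false

open Complex MeasureTheory Set Filter Topology

namespace Pool.Agent.H65.DP

open Pool.Agent.H25.DL Pool.Agent.H25.DP Pool.Agent.H11.DL

theorem norm_gx_le {β ξ x : ℝ} (hβ : 0 < β) (hx : 0 ≤ x) (hξ : 0 ≤ ξ) (y : ℝ) :
    ‖gx β ξ (x + y * I)‖ ≤ ‖gs β (x + y * I)‖ := by
  rw [norm_gx hβ, norm_gs hβ]
  have h1 : Real.exp (-(x * ξ)) ≤ 1 := by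
    rw [Real.exp_le_one_iff]
    have := mul_nonneg hx hξ
    linarith
  exact mul_le_of_le_one_left (by positivity) h1

theorem continuous_gx (β ξ : ℝ) (z : ℂ) : Continuous fun y : ℝ => gx β ξ (z + y * I) := by
  exact (differentiable_gx β ξ).continuous.comp (by fun_prop)

theorem exx : T_EXX := by
  classical
  intro ι _ f Y d t₀ x₁ D hY hx₁ hx₁d hdD hr
  obtain ⟨β₂, hβ₂, hTR⟩ := tr ι f 1 (d - x₁) D (by linarith) hdD one_pos hr
  obtain ⟨β₃, hβ₃, hPr⟩ := norm_Pr_sub_one f
  refine ⟨max β₂ β₃, lt_max_of_lt_left hβ₂, fun β hβ => ?_⟩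
  have hβ2 : β₂ ≤ β := (le_max_left _ _).trans hβ
  have hβ3 : β₃ ≤ β := (le_max_right _ _).trans hβ
  have hβpos : 0 < β := hβ₂.trans_le hβ2
  obtain ⟨hx, -⟩ := hPr β hβ3
  obtain ⟨T₁, hT₁⟩ := hTR β hβ2
  obtain ⟨C, hC, hgrow⟩ := hY.growth (1 / 2 + β)
  have hd : 0 < d := by linarith
  have hD : 0 < D := by linarith
  have hμ : (0 : ℝ) < 1 := one_pos
  have hlog2 : 0 < Real.log 2 := Real.log_pos (by norm_num)
  have hπ : 0 < Real.sqrt Real.pi := Real.sqrt_pos.2 Real.pi_pos
  set L : ℝ := (Fintype.card ι : ℝ) with hL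
  have hL0 : 0 ≤ L := by positivity
  -- smallness
  have hlim1 : Tendsto (fun T : ℝ => C * Real.exp (d * β * Real.log 3) * Real.exp 1 *
      Real.exp (-(1 / 2 * Real.log T))) atTop
      (𝓝 (C * Real.exp (d * β * Real.log 3) * Real.exp 1 * 0)) := by
    refine Tendsto.const_mul _ (Real.tendsto_exp_atBot.comp ?_)
    exact tendsto_neg_atTop_atBot.comp (Real.tendsto_log_atTop.const_mul_atTop (by norm_num))
  rw [mul_zero] at hlim1
  have hlim2 := (tend_aux (3 / 2 * L * (D / 1) + d * β + 1 / 2) (d * β * Real.log 3 + 1) (1 / β ^ 2)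
    (by positivity)).const_mul (2 * C / Real.sqrt Real.pi)
  rw [mul_zero] at hlim2
  have hlog : Tendsto (fun T : ℝ => Real.log T / T) atTop (𝓝 0) := by
    have := Real.isLittleO_log_id_atTop.tendsto_div_nhds_zero
    simpa using this
  obtain ⟨T₀, hT₀⟩ := eventually_atTop.1 ((hlim1.eventually_le_const (show (0 : ℝ) < 1 / 16 by norm_num)).and
    ((hlim2.eventually_le_const (show (0 : ℝ) < 1 / 16 by norm_num)).and
    ((hlog.eventually_le_const (show (0 : ℝ) < 1 / 2 by norm_num)).and
      ((eventually_ge_atTop (max T₁ 3)).and (eventually_ge_atTop (2 * t₀))))))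
  refine ⟨T₀, fun T hT u hu ξ hξ => ?_⟩
  obtain ⟨s1, s2, s3, s4, s5⟩ := hT₀ T hT
  have hT1 : T₁ ≤ T := (le_max_left _ _).trans s4
  have hT3 : 3 ≤ T := (le_max_right _ _).trans s4
  have hTpos : 0 < T := by linarith
  have hlogT : 0 < Real.log T := Real.log_pos (by linarith)
  have hξ0 : 0 ≤ ξ := le_trans (by positivity) hξ
  rw [div_le_iff₀ hTpos] at s3
  set R := Real.log T with hR
  have ht₀ : t₀ ≤ u - R := by linarith [hu.1]
  have ht1 : 1 ≤ t₀ := hY.one_le
  have hup : u + R ≤ 3 * T := by linarith [hu.2]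
  -- bound for Y
  have hYb : ∀ σ t : ℝ, 1 / 2 ≤ σ → σ ≤ 1 / 2 + β → u - R ≤ t → t ≤ u + R →
      ‖Y (σ + t * I)‖ ≤ C * Real.exp (d * β * Real.log 3 + d * β * Real.log T) := by
    intro σ t h1 h2 h3 h4
    refine (hgrow σ t h1 h2 (by linarith)).trans ?_
    refine mul_le_mul_of_nonneg_left ?_ hC.le
    have ht : 1 ≤ t := by linarith
    calc t ^ (d * (σ - 1 / 2)) ≤ t ^ (d * β) :=
          Real.rpow_le_rpow_of_exponent_le ht (mul_le_mul_of_nonneg_left (by linarith) hd.le)
      _ ≤ (3 * T) ^ (d * β) := Real.rpow_le_rpow (by linarith) (by linarith) (by positivity)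
      _ = _ := by
          rw [Real.rpow_def_of_pos (by linarith), Real.log_mul (by norm_num) hTpos.ne']
          congr 1
          ring
  -- the functions on the line
  set g : ℝ → ℂ := fun y => Y (1 / 2 + β + (u + y : ℝ) * I) * gx β ξ (β + y * I) with hg
  set A : ℝ → ℂ := fun y => Pr f (1 / 2 + β + (u + y : ℝ) * I) with hA
  set P : (ι → ℕ) → ℝ → ℂ := fun j y => Pj f j (1 / 2 + β + (u + y : ℝ) * I) with hP
  have hgc : ContinuousOn g (Icc (-R) R) := by
    have h1 := continuousOn_Y hY (1 / 2 + β) u R ht₀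
    have h2 : ContinuousOn (fun y : ℝ => gx β ξ (β + y * I)) (Icc (-R) R) :=
      (continuous_gx β ξ (β : ℂ)).continuousOn
    have h3 := h1.mul h2
    refine h3.congr fun y _ => ?_
    simp only [hg]
    push_cast
    rfl
  have hAc : Continuous A := by
    have h3 := continuous_Pr f (1 / 2 + β) (fun l => by
      have := hx l
      rw [add_sub_cancel_left]; linarith)
    have h4 : A = (fun t : ℝ => Pr f (((1 / 2 + β : ℝ) : ℂ) + t * I)) ∘ fun y => u + y := by
      funext y
      simp only [hA, Function.comp]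
      congr 1
      push_cast; ring
    rw [h4]
    exact h3.comp (by fun_prop)
  have hPc : ∀ j, Continuous (P j) := by
    intro j
    have h3 := (differentiable_Pj f j).continuous
    exact h3.comp (continuous_line (1 / 2 + β) u)
  have hRR : -R ≤ R := by linarith
  have hAi : IntervalIntegrable (fun y => A y * g y) volume (-R) R :=
    (hAc.continuousOn.mul hgc).intervalIntegrable_of_Icc hRR
  have hPi : ∀ j, IntervalIntegrable (fun y => P j y * g y) volume (-R) R := fun j =>
    ((hPc j).continuousOn.mul hgc).intervalIntegrable_of_Icc hRR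
  have hKK : KR f Y β ξ R u = ∫ y in (-R)..R, A y * g y := by
    unfold KR
    refine intervalIntegral.integral_congr fun y _ => ?_
    simp only [hA, hg, mul_assoc]
  -- first part
  have hsub : (∫ y in (-R)..R, A y * g y) - ∑ j ∈ mains f 1 D T, ∫ y in (-R)..R, P j y * g y =
      ∫ y in (-R)..R, (A y - ∑ j ∈ mains f 1 D T, P j y) * g y := by
    have hSi : IntervalIntegrable (fun y => ∑ j ∈ mains f 1 D T, P j y * g y) volume (-R) R :=
      (continuousOn_finsetSum _ fun j _ => (hPc j).continuousOn.mul hgc).intervalIntegrable_of_Icc hRR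
    have := intervalIntegral.integral_sub (f := fun y => A y * g y)
      (g := fun y => ∑ j ∈ mains f 1 D T, P j y * g y) hAi hSi
    rw [← intervalIntegral.integral_finsetSum fun j _ => hPi j, ← this]
    refine intervalIntegral.integral_congr fun y _ => ?_
    show A y * g y - ∑ j ∈ mains f 1 D T, P j y * g y = _
    rw [← Finset.sum_mul]
    ring
  have hpart1 : ‖∫ y in (-R)..R, (A y - ∑ j ∈ mains f 1 D T, P j y) * g y‖ ≤
      1 / 16 * Real.exp (-(1 / 2 * Real.log T)) := by
    have h0 : ∀ y : ℝ, ‖gx β ξ (β + y * I)‖ ≤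
        Real.exp (-(x₁ * β * Real.log T)) * ‖gs β (β + y * I)‖ := by
      intro y
      rw [norm_gx hβpos, norm_gs hβpos]
      refine mul_le_mul_of_nonneg_right (Real.exp_le_exp.2 ?_) (by positivity)
      have := mul_le_mul_of_nonneg_left hξ hβpos.le
      linarith
    have h1 : ‖∫ y in (-R)..R, (A y - ∑ j ∈ mains f 1 D T, P j y) * g y‖ ≤
        ∫ y in (-R)..R, (T ^ (-((d - x₁) * β) - 1) *
          (C * Real.exp (d * β * Real.log 3 + d * β * Real.log T)) *
          Real.exp (-(x₁ * β * Real.log T))) * ‖gs β (β + y * I)‖ := by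
      refine intervalIntegral.norm_integral_le_of_norm_le hRR ?_
        ((continuous_const.mul (continuous_gs β (β : ℂ)).norm).intervalIntegrable _ _)
      refine Eventually.of_forall fun y hy => ?_
      simp only [hg]
      rw [norm_mul, norm_mul, mul_assoc, mul_assoc]
      refine mul_le_mul (hT₁ T hT1 (u + y)) ?_ (by positivity) (by positivity)
      refine mul_le_mul ?_ (h0 y) (norm_nonneg _) (by positivity)
      have := hYb (1 / 2 + β) (u + y) (by linarith) le_rfl (by linarith [hy.1]) (by linarith [hy.2])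
      have e : (1 / 2 + β + (u + y : ℝ) * I : ℂ) = ((1 / 2 + β : ℝ) : ℂ) + ((u + y : ℝ) : ℂ) * I := by
        push_cast; ring
      rw [e]
      exact this
    rw [intervalIntegral.integral_const_mul] at h1
    have h2 := intervalIntegral_norm_gs_le hβpos β R hlogT.le
    have h5 : Real.exp (β ^ 2 / β ^ 2) = Real.exp 1 := by
      congr 1
      field_simp
    rw [h5] at h2
    refine (h1.trans (mul_le_mul_of_nonneg_left h2 (by positivity))).trans ?_
    have h6 : T ^ (-((d - x₁) * β) - 1) *
        (C * Real.exp (d * β * Real.log 3 + d * β * Real.log T)) *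
        Real.exp (-(x₁ * β * Real.log T)) * Real.exp 1 =
        (C * Real.exp (d * β * Real.log 3) * Real.exp 1 * Real.exp (-(1 / 2 * Real.log T))) *
          Real.exp (-(1 / 2 * Real.log T)) := by
      have h7 : Real.exp (Real.log T * (-((d - x₁) * β) - 1)) * Real.exp (d * β * Real.log T) *
          Real.exp (-(x₁ * β * Real.log T)) =
          Real.exp (-(1 / 2 * Real.log T)) * Real.exp (-(1 / 2 * Real.log T)) := by
        rw [← Real.exp_add, ← Real.exp_add, ← Real.exp_add]
        congr 1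
        ring
      rw [Real.exp_add, Real.rpow_def_of_pos hTpos]
      linear_combination (C * Real.exp (d * β * Real.log 3) * Real.exp 1) * h7
    rw [h6]
    exact mul_le_mul_of_nonneg_right s1 (Real.exp_pos _).le
  -- second part
  have hpart2 : ∀ j ∈ mains f 1 D T, ‖(∫ y in (-R)..R, P j y * g y) - KX f Y β ξ R j u‖ ≤
      2 * β * (Real.exp (L * (D / 1) / 2 * Real.log T) *
        (C * Real.exp (d * β * Real.log 3 + d * β * Real.log T)) *
        (Real.exp (1 - 1 / β ^ 2 * R ^ 2) / (β * Real.sqrt Real.pi))) := by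
    intro j hj
    set F : ℂ → ℂ := fun s => Pj f j s * Y s * gx β ξ (s - 1 / 2 - u * I) with hF
    have hside : ∀ (x t : ℝ), 1 / 2 ≤ x → x ≤ 1 / 2 + β → |t| = R →
        ‖F (x + (u + t : ℝ) * I)‖ ≤ Real.exp (L * (D / 1) / 2 * Real.log T) *
        (C * Real.exp (d * β * Real.log 3 + d * β * Real.log T)) *
        (Real.exp (1 - 1 / β ^ 2 * R ^ 2) / (β * Real.sqrt Real.pi)) := by
      intro x t hx1 hx2 ht
      have ht' : -R ≤ t ∧ t ≤ R := by
        rw [← abs_le]; exact ht.le
      simp only [hF]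
      rw [norm_mul, norm_mul]
      refine mul_le_mul (mul_le_mul ?_ ?_ (norm_nonneg _) (Real.exp_pos _).le) ?_ (norm_nonneg _)
        (by positivity)
      · refine (norm_Pj_le f j _ (by simpa using hx1)).trans (Real.exp_le_exp.2 ?_)
        have h1 := (mem_mains f hμ hD (by linarith) j hj).1
        have h2 : ∑ l, (j l : ℝ) * (1 * Real.log 2) ≤ L * (D * Real.log T) := by
          refine (Finset.sum_le_card_nsmul _ _ _ fun l _ => h1 l).trans ?_
          rw [Finset.card_univ, nsmul_eq_mul]
        rw [← Finset.sum_mul] at h2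
        have h3 : (∑ l, (j l : ℝ)) * Real.log 2 ≤ L * (D / 1) * Real.log T := by
          have : ((∑ l, (j l : ℝ)) * Real.log 2) * 1 ≤ (L * (D / 1) * Real.log T) * 1 := by
            rw [show (L * (D / 1) * Real.log T) * 1 = L * (D * Real.log T) by field_simp]
            linarith
          exact le_of_mul_le_mul_right this hμ
        have h4 : 0 ≤ ∑ l, (j l : ℝ) * (f l).r * Real.log 2 := Finset.sum_nonneg fun l _ => by
          have := (f l).r_pos
          positivity
        have h5 : 0 ≤ (((x : ℂ) + (u + t : ℝ) * I).re - 1 / 2) := by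
          simp
          linarith
        have h6 := mul_nonneg h5 h4
        linarith
      · exact hYb x (u + t) hx1 hx2 (by linarith [ht'.1]) (by linarith [ht'.2])
      · have h1 : ((x : ℂ) + (u + t : ℝ) * I - 1 / 2 - u * I) = ((x - 1 / 2 : ℝ) : ℂ) + t * I := by
          push_cast; ring
        rw [h1]
        refine (norm_gx_le hβpos (by linarith) hξ0 t).trans ?_
        rw [norm_gs hβpos]
        refine div_le_div_of_nonneg_right (Real.exp_le_exp.2 ?_) (by positivity)
        have h2 : t ^ 2 = R ^ 2 := by rw [← sq_abs, ht]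
        rw [h2, sub_div]
        have h3 : (x - 1 / 2) ^ 2 / β ^ 2 ≤ 1 := by
          rw [div_le_one (by positivity)]
          exact pow_le_pow_left₀ (by linarith) (by linarith) 2
        have h4 : R ^ 2 / β ^ 2 = 1 / β ^ 2 * R ^ 2 := by ring
        rw [h4]
        linarith
    have hdiff : ∀ s : ℂ, 1 / 2 ≤ s.re → s.re ≤ 1 / 2 + β → |s.im - u| ≤ R → DifferentiableAt ℂ F s := by
      intro s _ _ h3
      have h4 := abs_le.1 h3
      have h5 : DifferentiableAt ℂ Y s := hY.diff s (by linarith [h4.1])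
      have h6 : DifferentiableAt ℂ (fun s : ℂ => gx β ξ (s - 1 / 2 - u * I)) s := by
        have := differentiable_gx β ξ (s - 1 / 2 - u * I)
        exact this.comp (f := fun s : ℂ => s - 1 / 2 - u * I) s (by fun_prop)
      exact ((differentiable_Pj f j s).mul h5).mul h6
    have key := shift_rect F (a := 1 / 2) (b := 1 / 2 + β) (u := u) (R := R) (by linarith) hlogT.le
      hdiff (fun x hx1 hx2 => by
        have := hside x (-R) hx1 hx2 (by rw [abs_neg, abs_of_pos hlogT])
        rwa [← sub_eq_add_neg] at this)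
      (fun x hx1 hx2 => hside x R hx1 hx2 (abs_of_pos hlogT))
    have e1 : ∫ y in (-R)..R, P j y * g y =
        ∫ y in (-R)..R, F (((1 / 2 + β : ℝ) : ℂ) + (u + y : ℝ) * I) := by
      refine intervalIntegral.integral_congr fun y _ => ?_
      simp only [hP, hg, hF]
      rw [show (((1 / 2 + β : ℝ) : ℂ) + (u + y : ℝ) * I) = 1 / 2 + β + (u + y : ℝ) * I by push_cast; ring,
        show (1 / 2 + β + (u + y : ℝ) * I - 1 / 2 - u * I : ℂ) = β + y * I by push_cast; ring]
      ring
    have e2 : KX f Y β ξ R j u = ∫ y in (-R)..R, F (((1 / 2 : ℝ) : ℂ) + (u + y : ℝ) * I) := by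
      unfold KX
      refine intervalIntegral.integral_congr fun y _ => ?_
      simp only [hF]
      rw [show (((1 / 2 : ℝ) : ℂ) + (u + y : ℝ) * I) = 1 / 2 + (u + y : ℝ) * I by push_cast; ring,
        show (1 / 2 + (u + y : ℝ) * I - 1 / 2 - u * I : ℂ) = y * I by push_cast; ring]
    rw [e1, e2]
    refine key.trans (le_of_eq ?_)
    ring
  have hcard := card_mains_le f hμ hD (show 1 ≤ T by linarith)
  rw [← hL] at hcard
  rw [hKK]
  have hfin : (∫ y in (-R)..R, A y * g y) - ∑ j ∈ mains f 1 D T, KX f Y β ξ R j u =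
      ((∫ y in (-R)..R, A y * g y) - ∑ j ∈ mains f 1 D T, ∫ y in (-R)..R, P j y * g y) +
        ∑ j ∈ mains f 1 D T, ((∫ y in (-R)..R, P j y * g y) - KX f Y β ξ R j u) := by
    rw [Finset.sum_sub_distrib]
    ring
  rw [hfin, hsub]
  have hsum2 : ‖∑ j ∈ mains f 1 D T, ((∫ y in (-R)..R, P j y * g y) - KX f Y β ξ R j u)‖ ≤
      1 / 16 * Real.exp (-(1 / 2 * Real.log T)) := by
    refine (norm_sum_le _ _).trans ((Finset.sum_le_card_nsmul _ _ _ hpart2).trans ?_)
    rw [nsmul_eq_mul]
    refine (mul_le_mul_of_nonneg_right hcard (by positivity)).trans ?_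
    refine le_trans (le_of_eq ?_) (mul_le_mul_of_nonneg_right s2 (Real.exp_pos _).le)
    have h1 : (3 / 2 * L * (D / 1) + d * β + 1 / 2) * Real.log T + (d * β * Real.log 3 + 1) -
        1 / β ^ 2 * Real.log T ^ 2 = 1 / 2 * Real.log T + (L * (D / 1) * Real.log T +
          (L * (D / 1) / 2 * Real.log T +
          ((d * β * Real.log 3 + d * β * Real.log T) + (1 - 1 / β ^ 2 * R ^ 2)))) := by
      rw [← hR]
      ring
    have h2 : Real.exp (1 / 2 * Real.log T) * Real.exp (-(1 / 2 * Real.log T)) = 1 := by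
      rw [← Real.exp_add]; simp
    rw [h1, Real.exp_add (1 / 2 * Real.log T), Real.exp_add (L * (D / 1) * Real.log T),
      Real.exp_add (L * (D / 1) / 2 * Real.log T),
      Real.exp_add (d * β * Real.log 3 + d * β * Real.log T)]
    generalize Real.exp (1 / 2 * Real.log T) = e1 at h2 ⊢
    generalize Real.exp (-(1 / 2 * Real.log T)) = e2 at h2 ⊢
    generalize Real.exp (L * (D / 1) * Real.log T) = e3
    generalize Real.exp (L * (D / 1) / 2 * Real.log T) = e4
    generalize Real.exp (d * β * Real.log 3 + d * β * Real.log T) = e5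
    generalize Real.exp (1 - 1 / β ^ 2 * R ^ 2) = e6
    have h3 : 2 * C / Real.sqrt Real.pi * (e1 * (e3 * (e4 * (e5 * e6)))) * e2 =
        2 * C / Real.sqrt Real.pi * (e3 * (e4 * (e5 * e6))) := by
      linear_combination (2 * C / Real.sqrt Real.pi * (e3 * (e4 * (e5 * e6)))) * h2
    rw [h3]
    field_simp
  refine (norm_add_le _ _).trans ?_
  rw [Real.rpow_def_of_pos hTpos, show Real.log T * -(1 / 2) = -(1 / 2 * Real.log T) by ring]
  have h9 := Real.exp_pos (-(1 / 2 * Real.log T))
  linarith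

end Pool.Agent.H65.DP
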